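import Pool.Agent.L7h1.FC.Core
import Pool.Agent.R430.T1

/-!
# Beilinson's conjecture on ranks for the Fermat cubics of dimensions 1, 3 and 5 over the extensions of
# degree a power of two of quadratic extensions of `ℚ(√-3)`

`X_n` is the cubic Fermat hypersurface `x_0³ + … + x_{n+1}³ = 0` of dimension `n = 2 c + 1`, `c = 0, 1, 2`
(a curve, a threefold and a fivefold).  Call a prime of a number field good when `2` is not a cube
modulo it.  Let `F = ℚ(√-3)`, let `N/F` be a quadratic extension in which only good primes ramify (any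
class number), let `K/N` be a Galois extension of exponent two in which only good primes ramify, or an
abelian extension of degree a power of two with an Artin map modulo an ideal with only good prime
divisors, and let `k` be any field with `k(√-3) = K`, for example `k = K`, or `k` a multiquadratic
extension with good ramification of a quadratic field with good ramification.

Theorem: over all these number fields `k` Beilinson's conjecture on ranks holds for `X_1`, `X_3` and
`X_5` (the cases `i = 0`, `1`, `2`), both sides being zero: the `L`-function of `H^n(X_n)` is meromorphic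
on the complex plane, it is holomorphic and not zero at the centre `s = (n + 1) / 2`, and the group
`E(k)` is finite for the curve `E : y² + y = x³`.

The intermediate Jacobian `J` of `X_n` is isogenous over `ℚ` to the power `E^b`, `b = binomial(n + 2, c)`
(`1`, `5`, `21`), and `CH^{c+1}(X_n)_0 ⊗ ℚ = J(k) ⊗ ℚ` (Bloch–Murre for the threefolds, Collino and
Paranjape for the fivefolds); this is not formalized.

The `L`-function is given by the numbers of points: for a place `v` of `k` not dividing `3` the `2 b`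
eigenvalues `α` of the Frobenius on `H^n(X_n)` are determined by
`#X_n(𝔽) = 1 + q + … + q^n - ∑ α^r` for all the finite fields `𝔽` with `q = N(v)^r` elements.  The Euler
factors at the places dividing `3` are `1`: the equation of `E` is minimal there and the reduction is
additive, so there are no invariants of the inertia groups.

Before, the conjecture was known in the library for diagonal cubic threefolds and fivefolds over
`ℚ`, `ℚ(√-3)` and over fields generated by cube roots of rational primes.  The arithmetic of `E` over the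
fields `k` is in `Pool/Agent/R430` (see `MP_32c55d_nt/QuadraticBaseRank`), the points over finite fields are
counted in `Pool/Agent/N883/DQ`.
-/

set_option autoImplicit false

open NumberField IsDedekindDomain
open scoped Classical

namespace Pool.Agent.Results.MP_6dc9d1_nt.FermatCubicsTwoExtensions

/-- only primes modulo which `2` is not a cube ramify in `K/F`: if `σ ≠ 1` lies in the inertia group of
the prime `w` of `K`, then `2` is not a cube modulo the prime of `F` below `w` -/
def GoodRam (F K : Type) [Field F] [NumberField F] [Field K] [NumberField K] [Algebra F K] : Prop :=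
  ∀ (w : HeightOneSpectrum (𝓞 K)) (σ : Gal(K/F)), (∀ x : 𝓞 K, σ • x - x ∈ w.asIdeal) → σ ≠ 1 →
    ∀ α : 𝓞 F, α ^ 3 - 2 ∉ w.asIdeal.under (𝓞 F)

/-- `Φ` is an Artin map modulo the ideal `𝔪` of the Galois extension `K/F` (`F` has no real place): on
the non-zero ideals prime to `𝔪` it is multiplicative, it is trivial on the ideals `(α)` with
`α - 1 ∈ 𝔪`, `α ≠ 0`, the inertia groups of the primes of `K` not above a prime divisor of `𝔪` are
trivial, and `Φ(𝔭)` acts as a Frobenius automorphism at the primes of `K` above `𝔭`, `𝔭 ∤ 𝔪` -/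
structure ArtinMap {F K : Type} [Field F] [NumberField F] [Field K] [NumberField K] [Algebra F K]
    (𝔪 : Ideal (𝓞 F)) (Φ : Ideal (𝓞 F) → Gal(K/F)) : Prop where
  mul : ∀ I J : Ideal (𝓞 F), I ≠ ⊥ → J ≠ ⊥ → IsCoprime I 𝔪 → IsCoprime J 𝔪 → Φ (I * J) = Φ I * Φ J
  ray : ∀ α : 𝓞 F, α ≠ 0 → α - 1 ∈ 𝔪 → Φ (Ideal.span {α}) = 1
  unram : ∀ w : HeightOneSpectrum (𝓞 K), ¬ 𝔪 ≤ w.asIdeal.under (𝓞 F) →
    ∀ σ : Gal(K/F), (∀ x : 𝓞 K, σ • x - x ∈ w.asIdeal) → σ = 1
  frob : ∀ w : HeightOneSpectrum (𝓞 K), ¬ 𝔪 ≤ w.asIdeal.under (𝓞 F) → ∀ x : 𝓞 K,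
    Φ (w.asIdeal.under (𝓞 F)) • x - x ^ Nat.card (𝓞 F ⧸ w.asIdeal.under (𝓞 F)) ∈ w.asIdeal

/-- the hypothesis on `K/N`: its Galois group has exponent `2` and only good primes ramify, or it is
abelian of degree `2 ^ n` and has an Artin map modulo an ideal `𝔪 ≠ 0` with only good prime divisors -/
def Admissible (N K : Type) [Field N] [NumberField N] [Field K] [NumberField K] [Algebra N K] : Prop :=
  (GoodRam N K ∧ ∀ σ : Gal(K/N), σ * σ = 1) ∨
    ((∃ n : ℕ, Module.finrank N K = 2 ^ n) ∧ (∀ σ τ : Gal(K/N), σ * τ = τ * σ) ∧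
      ∃ 𝔪 : Ideal (𝓞 N), 𝔪 ≠ ⊥ ∧
        (∀ v : HeightOneSpectrum (𝓞 N), 𝔪 ≤ v.asIdeal → ∀ α : 𝓞 N, α ^ 3 - 2 ∉ v.asIdeal) ∧
        ∃ Φ : Ideal (𝓞 N) → Gal(K/N), ArtinMap 𝔪 Φ)

/-- The solutions, not all zero, of `x_0³ + … + x_{m-1}³ = 0` in the field `F`. -/
def solutions (m : ℕ) (F : Type) [Field F] : Set (Fin m → F) :=
  {x | x ≠ 0 ∧ ∑ i, x i ^ 3 = 0}

/-- `A` is the multiset of the eigenvalues of the Frobenius of the field with `q` elements on
`H^n(X_n)`, `n` odd: for every field `F` with `q ^ r` elements the equation of `X_n` has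
`(#F - 1) (1 + #F + ... + #F^n - ∑ α^r)` nonzero solutions in `F`. -/
def IsFrobenius (n q : ℕ) (A : Multiset ℂ) : Prop :=
  ∀ (F : Type) [Field F] [Finite F] (r : ℕ), Nat.card F = q ^ r →
    ((solutions (n + 2) F).ncard : ℂ) = (Nat.card F - 1) *
      (∑ i ∈ Finset.range (n + 1), (Nat.card F : ℂ) ^ i - (A.map (fun α => α ^ r)).sum)

/-- `L` is meromorphic on the complex plane and equal for `Re s > n / 2 + 1` to
`L(H^n(X_n / k), s)`, the Euler product over all the finite places of `k`.  Here `b` is the dimension of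
`H^n(X_n)`, and the `b` eigenvalues at the places `v` not dividing `3` have the absolute
value `N(v) ^ (n / 2)`; at the places dividing `3` there are no invariants of the inertia group. -/
def IsLFunction (k : Type) [Field k] [NumberField k] (n b : ℕ) (L : ℂ → ℂ) : Prop :=
  MeromorphicOn L Set.univ ∧ ∃ A : HeightOneSpectrum (𝓞 k) → Multiset ℂ,
    (∀ v, (3 : 𝓞 k) ∉ v.asIdeal → IsFrobenius n (Ideal.absNorm v.asIdeal) (A v) ∧
      (A v).card = b ∧ ∀ α ∈ A v, ‖α‖ ^ 2 = (Ideal.absNorm v.asIdeal : ℝ) ^ n) ∧
    (∀ v, (3 : 𝓞 k) ∈ v.asIdeal → A v = 0) ∧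
    ∀ s : ℂ, (n : ℝ) / 2 + 1 < s.re →
      HasProd (fun v : HeightOneSpectrum (𝓞 k) =>
        ((A v).map (fun α => (1 - α * (Ideal.absNorm v.asIdeal : ℂ) ^ (-s))⁻¹)).prod) (L s)

/-- The curve `E : y² + y = x³` over `k`. -/
def curve (k : Type) [Field k] : WeierstrassCurve k := ⟨0, 0, 1, 0, 0⟩

/-- Beilinson's conjecture on ranks for the Fermat cubic `X_n` over `k`, `n = 2 c + 1`, with both sides
zero: `E(k)` is finite, `L(H^n(X_n / k), s)` is continued to the complex plane and holomorphic at
`s = c + 1`, its order there is `binomial(2 c + 3, c) · rank E(k)`, the rank of the intermediate Jacobian,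
and its value there is not zero. -/
def Beilinson (k : Type) [Field k] [NumberField k] (c : ℕ) : Prop :=
  Finite (curve k).toAffine.Point ∧
  ∃ L : ℂ → ℂ, IsLFunction k (2 * c + 1) (2 * (2 * c + 3).choose c) L ∧
    AnalyticAt ℂ L (c + 1) ∧
    analyticOrderAt L (c + 1) =
      ((2 * c + 3).choose c * Module.finrank ℤ (curve k).toAffine.Point : ℕ) ∧
    L (c + 1) ≠ 0

theorem beilinson_of {k : Type} [Field k] [NumberField k] (h : Pool.Agent.Y696.TwoPart k) {c : ℕ}
    (hc : c ≤ 2) : Beilinson k c := by
  obtain ⟨L, h1, h2, h3⟩ := Pool.Agent.L7h1.FC.core h hc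
  have hfin : Finite (curve k).toAffine.Point := h.finite
  have hr : Module.finrank ℤ (curve k).toAffine.Point = 0 := by
    refine Module.finrank_eq_zero_of_rank_eq_zero ?_
    rw [rank_eq_zero_iff]
    intro x
    refine ⟨(Nat.card (curve k).toAffine.Point : ℤ), by exact_mod_cast Nat.card_pos.ne', ?_⟩
    rw [natCast_zsmul]
    exact card_nsmul_eq_zero'
  refine ⟨hfin, L, h1, h2, ?_, h3⟩
  rw [hr, mul_zero, analyticOrderAt_eq_zero.2 (Or.inr h3)]
  rfl

/-- **Main theorem.**  Let `F = ℚ(√-3)`, let `N/F` be a quadratic extension in which only good primes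
ramify, `K/N` an admissible Galois extension and `k` a field with `k(√-3) = K`.  Then Beilinson's
conjecture on ranks holds, with both sides zero, for the cubic Fermat hypersurfaces of the dimensions
`1`, `3` and `5` over `k`. -/
theorem result : ∀ (F N K k : Type) [Field F] [NumberField F] [IsCyclotomicExtension {3} ℚ F]
    [Field N] [NumberField N] [Algebra F N] [Field K] [NumberField K] [Algebra N K] [IsGalois N K]
    [Field k] [NumberField k] [Algebra k K],
    Module.finrank F N = 2 → GoodRam F N → Admissible N K →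
    (∃ a : K, a ^ 2 = -3 ∧ IntermediateField.adjoin k {a} = ⊤) →
    ∀ c : ℕ, c ≤ 2 → Beilinson k c := by
  intro F N K k _ _ _ _ _ _ _ _ _ _ _ _ _ h2 hg hcase hk c hc
  have hyp : Pool.Agent.R430.Hyp N K := by
    rcases hcase with ⟨h3, h4⟩ | ⟨hn, hcomm, 𝔪, h𝔪, hgood, Φ, hΦ⟩
    · exact Or.inl ⟨h3, h4⟩
    · exact Or.inr ⟨hn, hcomm, 𝔪, h𝔪, hgood, Φ, hΦ.mul, hΦ.ray, hΦ.unram, hΦ.frob⟩
  exact beilinson_of (Pool.Agent.R430.all_k h2 hg hyp hk) hc

end Pool.Agent.Results.MP_6dc9d1_nt.FermatCubicsTwoExtensions
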