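import Pool.Agent.L7h3.BK.Main
import Pool.Agent.L7h3.BK.Eul2
import Pool.Agent.L7h3.BK.Cone
import Pool.Agent.Results.MP_32c55d_nt.QuarticTwistsOneSeventh

/-!
# Beilinson's conjecture on ranks in every odd dimension, for one seventh of the members of a family over
# `ℚ(i)`, and over Kummer extensions of `ℚ(i)`

`K` is a number field with an isomorphism `e` of the ring `ℤ[i]` of Gaussian integers with its ring of
integers (so `K = ℚ(i)`), and `E_D` is the curve `y² = x³ + D x`, `D ∈ ℤ[i]`.  Let `F ⊇ K` be a number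
field, `m ≥ 0`, and let `a_0, …, a_{2m}` be nonzero integers of `F`.  Let `X = X_{a,D}` be the quadric bundle

  `a_0 x_0² + … + a_{2m} x_{2m}² = (t³ + D t) z²`

over the projective line with the coordinate `t` (at infinity one puts `t = 1/s`, `z = s² z'`, the right
hand side becomes `(s + D s³) z'²`).  `X` is smooth and projective of dimension `2 m + 1`; its four
singular fibres, over `t = ∞`, `t = 0` and `t² = -D`, are cones.  Let `c = (-1)^m a_0 ⋯ a_{2m}`, and let
`E_{D c²}` be the curve `y² = x³ + D c² x`, the twist of `E_D` by `F(√c)/F`; for `m = 0` the variety `X` is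
`E_{D c²}`.

It is known that `H^{2m+1}(X) = H¹(E_{D c²})(-m)`, that all the other cohomology groups are generated by
algebraic cycles over `F`, and that `CH^{m+1}(X)_0 ⊗ ℚ = E_{D c²}(F) ⊗ ℚ` (quadric bundles over curves; the
double cover of the line given by the discriminant is `E_{D c²}`).  So Beilinson's conjecture for `X` (the
case `i = m`) is the statement `ord_{s=m+1} L(H^{2m+1}(X), s) = rank E_{D c²}(F)`.

The class of the `D` that are odd, squarefree and not `± 1` modulo `4`, and the *good* `D` in the class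
(`D` is no product `d d'`, `d ≡ 1 mod 4`, `d ≠ 1`, with `d'` a square modulo the prime divisors of `d` and
`d` a square modulo the prime divisors of `d'`) are as in `MP_32c55d_nt.QuarticTwistsOneSeventh`.  The
proportion of the good `D` in the class, ordered by norm, tends to `∏_{i ≥ 0} (1 - 2^{-(2 i + 1)}) = 0.4194…`,
and they are at least one seventh of all the `D` that no fourth power of a prime divides.

Theorem: let `D` be good, let `M ⊇ K` be generated by any fourth roots of the elements of a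
`QuarticSet` `R` and any square roots of elements `δ` with `Quadratic D R δ`, and let `F` be ANY field
between `K` and `M` (for instance `F = K`).  Then for ALL `m` and ALL `a_0, …, a_{2m}` in `F` such that
`c = (-1)^m a_0 ⋯ a_{2m}` is a square in `M` (not necessarily in `F`) Beilinson's conjecture holds for `X`,
both sides being `0`: the `L`-function is entire, its value at `s = m + 1` is not zero, and `E_{D c²}(F)` is
finite.  If `D` has a prime divisor whose conjugate does not divide `D`, then there are infinitely many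
prime numbers `q ≡ 7 mod 8` such that all the finite sets `R` of the `-q` are allowed; so `M/K` can have
any Galois group `(ℤ/4)^k × (ℤ/2)^l`.

For `F = K` this includes all the `a_0, …, a_{2m}` in `ℤ[i]` such that modulo every prime which divides
`a_0 ⋯ a_{2m}`, `D` is zero or a nonresidue (`R = ∅`, `M = K(√c)`).

The `L`-function is given by the numbers of points: at a place `v` of `F` that does not divide
`2 D a_0 ⋯ a_{2m}`, with `N(v) = q`, the two eigenvalues `α`, `ᾱ` of the Frobenius on `H^{2m+1}(X)` are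
determined by `αᾱ = q^{2m+1}` and `#X(𝔽_q) = (1 + q)(1 + q + … + q^{2m}) - (α + ᾱ)`.  The Euler factors at
the finitely many other places are left out; they are finite and not zero at the centre, so the order
of vanishing is the same.

This contains the earlier result of helper1 (`K` only, `c` a square in `K`, a positive proportion of the
`D` that was not explicit).  The points of the quadric bundles are counted in `Pool/Agent/L7h1/QB` (helper1),
from which `Pool/Agent/L7h3/BK/Eul2.lean` is adapted.  The arithmetic of the curves is from project QX (helper3,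
23, 65, 73, 77, 89, 93, 97, 32, 76, see `MP_32c55d_nt.QuarticTwistsOneSeventh`), where only the curve `E_D`
over `M` is treated; new is the step to all the intermediate fields and all the twists, by Kummer theory
(helper53, `Pool/Agent/L7h53/EQ`): `F` is generated by fourth roots of products of the elements, and a
twist by `√c ∈ M` is the twist by such a product up to a fourth power.
-/

set_option autoImplicit false

namespace Pool.Agent.Results.MP_6dc9d1_nt.KummerQuadricBundles

open NumberField IsDedekindDomain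
open Pool.Agent.Results.MP_32c55d_nt.QuarticTwistsOneSeventh (FourthPowerFree Family InClass SquareMod
  Good Compatible QuarticSet Quadratic)

section bundles

variable {F : Type} [Field F] [NumberField F]

/-- For a finite field `κ` and elements `a_j` and `d` of `κ` this is `(#κ - 1) #X(κ)`, where `X` is the
quadric bundle `∑ a_j x_j² = (t³ + d t) z²` over the projective line: the number of the `t` in `κ` and
`(x, z) ≠ 0` which satisfy the equation, and of the `(x, z) ≠ 0` with `∑ a_j x_j² = 0` (the fibre at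
infinity). -/
noncomputable def cone (κ : Type) [CommRing κ] (m : ℕ) (a : Fin (2 * m + 1) → κ) (d : κ) : ℕ :=
  Nat.card {p : κ × (Fin (2 * m + 1) → κ) × κ // p.2 ≠ 0 ∧
    ∑ j, a j * p.2.1 j ^ 2 = (p.1 ^ 3 + d * p.1) * p.2.2 ^ 2} +
  Nat.card {p : (Fin (2 * m + 1) → κ) × κ // p ≠ 0 ∧ ∑ j, a j * p.1 j ^ 2 = 0}

/-- `α` and its complex conjugate are the eigenvalues of the Frobenius at the place `v` (not dividing
`2 d ∏ a_j`) on `H^{2m+1}(X)`: `|α|² = N(v)^{2m+1}`, and the number of points of `X` over the residue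
field is `(1 + N(v)) (1 + N(v) + … + N(v)^{2m}) - (α + ᾱ)`. -/
def IsFrobenius (m : ℕ) (a : Fin (2 * m + 1) → 𝓞 F) (d : 𝓞 F) (v : HeightOneSpectrum (𝓞 F)) (α : ℂ) :
    Prop :=
  ‖α‖ ^ 2 = (Ideal.absNorm v.asIdeal : ℝ) ^ (2 * m + 1) ∧
  (cone (𝓞 F ⧸ v.asIdeal) m (fun j => Ideal.Quotient.mk v.asIdeal (a j))
    (Ideal.Quotient.mk v.asIdeal d) : ℂ) =
    ((Ideal.absNorm v.asIdeal : ℂ) - 1) *
      ((1 + (Ideal.absNorm v.asIdeal : ℂ)) *
        ∑ l ∈ Finset.range (2 * m + 1), (Ideal.absNorm v.asIdeal : ℂ) ^ l -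
      (α + (starRingEnd ℂ) α))

/-- `L` is an entire function which for `Re s > m + 3 / 2` is the `L`-function of `H^{2m+1}(X)`, that is
the product of the Euler factors `((1 - α N(v)^{-s}) (1 - ᾱ N(v)^{-s}))⁻¹` at the places `v` that do not
divide `2 d ∏ a_j`. -/
def IsLFunction (m : ℕ) (a : Fin (2 * m + 1) → 𝓞 F) (d : 𝓞 F) (L : ℂ → ℂ) : Prop :=
  Differentiable ℂ L ∧ ∃ α : HeightOneSpectrum (𝓞 F) → ℂ,
    (∀ v : HeightOneSpectrum (𝓞 F), 2 * d * ∏ j, a j ∉ v.asIdeal → IsFrobenius m a d v (α v)) ∧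
    ∀ s : ℂ, m + 3 / 2 < s.re →
      HasProd (fun v : {v : HeightOneSpectrum (𝓞 F) // 2 * d * ∏ j, a j ∉ v.asIdeal} =>
        ((1 - α v.1 * (Ideal.absNorm v.1.asIdeal : ℂ) ^ (-s)) *
          (1 - (starRingEnd ℂ) (α v.1) * (Ideal.absNorm v.1.asIdeal : ℂ) ^ (-s)))⁻¹) (L s)

/-- The discriminant `c = (-1)^m a_0 ⋯ a_{2m}`. -/
def disc {m : ℕ} (a : Fin (2 * m + 1) → 𝓞 F) : 𝓞 F := (-1) ^ m * ∏ j, a j

/-- The curve `y² = x³ + d c² x` over `F`, the twist of `y² = x³ + d x` by the square root of `c`. -/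
def curve (d c : 𝓞 F) : WeierstrassCurve F := ⟨0, 0, 0, (d : F) * (c : F) ^ 2, 0⟩

open scoped Classical in
/-- Beilinson's conjecture for `X_{a,d}` over `F` (`CH^{m+1}(X)_0 ⊗ ℚ = E(F) ⊗ ℚ` for
`E : y² = x³ + d c² x`), with both sides zero: the group `E(F)` is finite, `L(H^{2m+1}(X), s)` is entire,
its order at `s = m + 1` is the rank of `E(F)`, and its value there is not zero. -/
def Beilinson (d : 𝓞 F) (m : ℕ) (a : Fin (2 * m + 1) → 𝓞 F) : Prop :=
  Finite (curve d (disc a)).toAffine.Point ∧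
  ∃ L : ℂ → ℂ, IsLFunction m a d L ∧
    analyticOrderAt L (m + 1) = Module.finrank ℤ (curve d (disc a)).toAffine.Point ∧ L (m + 1) ≠ 0

end bundles

/-- `M` is generated over `K` by a finite set `T` of elements `t` with `t² = δ` for some `δ` with
`Quadratic D R δ`, or with `t⁴ ∈ R`. -/
def IsKummer {K : Type} [Field K] [NumberField K] (e : GaussianInt ≃+* 𝓞 K) (D : GaussianInt)
    (R : Finset GaussianInt) (M : Type) [Field M] [Algebra K M] : Prop :=
  ∃ T : Finset M, (∀ t ∈ T, (∃ δ : GaussianInt, Quadratic D R δ ∧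
      t ^ 2 = algebraMap K M (algebraMap (𝓞 K) K (e δ))) ∨
      ∃ ρ ∈ R, t ^ 4 = algebraMap K M (algebraMap (𝓞 K) K (e ρ))) ∧
    IntermediateField.adjoin K (T : Set M) = ⊤

/-- The statement for one `D`.

* If `D` has a prime divisor whose conjugate does not divide `D`, then there are infinitely many `-q`,
  `q ≡ 7 mod 8` a prime number, such that all the finite sets `R` of them are a `QuarticSet`.
* For `K = ℚ(i)` (every number field `K` with an isomorphism `e` of `ℤ[i]` with its ring of integers),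
  every `QuarticSet` `R`, every number field `M ⊇ K` with `IsKummer e D R M`, every field `F` between
  `K` and `M`, every `m` and all nonzero integers `a_0, …, a_{2m}` of `F` such that
  `(-1)^m a_0 ⋯ a_{2m}` is a square in `M`: Beilinson's conjecture holds for `X_{a,D}` over `F`, with both
  sides zero. -/
def Proved (D : GaussianInt) : Prop :=
  ((∃ π : GaussianInt, Prime π ∧ π ∣ D ∧ ¬ star π ∣ D) → ∃ P : Set GaussianInt, P.Infinite ∧
    (∀ ρ ∈ P, ∃ q : ℕ, q.Prime ∧ q % 8 = 7 ∧ ρ = -(q : GaussianInt)) ∧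
    ∀ R : Finset GaussianInt, (R : Set GaussianInt) ⊆ P → QuarticSet D R) ∧
  ∀ (K : Type) [Field K] [NumberField K] (e : GaussianInt ≃+* 𝓞 K) (R : Finset GaussianInt),
    QuarticSet D R → ∀ (M : Type) [Field M] [NumberField M] [Algebra K M], IsKummer e D R M →
    ∀ (F : Type) [Field F] [NumberField F] [Algebra K F] [Algebra F M] [IsScalarTower K F M] (m : ℕ)
      (a : Fin (2 * m + 1) → 𝓞 F), (∀ j, a j ≠ 0) →
      (∃ γ : M, γ ^ 2 = algebraMap F M (disc a : 𝓞 F)) →
      Beilinson (algebraMap (𝓞 K) (𝓞 F) (e D)) m a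

section proof

open Pool.Agent.Results.MP_32c55d_nt.QuarticTwistsOneSeventh (quarticSet_iff quadratic_iff good_iff
  finrank_zero)
open Pool.Agent.H921R2.TatePole (nm)

theorem cone_eq' (κ : Type) [CommRing κ] (m : ℕ) (a : Fin (2 * m + 1) → κ) (d : κ) :
    cone κ m a d = Pool.Agent.L7h1.QB.cone κ m a (fun t => t ^ 3 + d * t) := rfl

theorem beilinson_of {F : Type} [Field F] [NumberField F] {d : 𝓞 F} (hd : d ≠ 0) {m : ℕ}
    {a : Fin (2 * m + 1) → 𝓞 F} (ha : ∀ j, a j ≠ 0)
    (h : Pool.Agent.L7h3.QD.Co2 ((d : F) * ((disc a : 𝓞 F) : F) ^ 2)) : Beilinson d m a := by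
  classical
  set c : 𝓞 F := disc a with hc
  have hprod : ∏ j, a j ≠ 0 := Finset.prod_ne_zero_iff.2 fun j _ => ha j
  have hc0 : c ≠ 0 := mul_ne_zero (pow_ne_zero _ (neg_ne_zero.2 one_ne_zero)) hprod
  have hcast : (((d * c ^ 2 : 𝓞 F)) : F) = (d : F) * (c : F) ^ 2 := by
    push_cast
    rfl
  have hCol : Pool.Agent.L7h3.QD.CoL (((d * c ^ 2 : 𝓞 F)) : F) := by rw [hcast]; exact h.2
  have hfin : Finite (curve d c).toAffine.Point := h.1
  have hmem : ∀ v : HeightOneSpectrum (𝓞 F), 2 * d * ∏ j, a j ∉ v.asIdeal → c ∉ v.asIdeal := by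
    intro v hv hcv
    apply hv
    have e1 : ∏ j, a j = (-1) ^ m * c := by
      rw [hc]
      unfold disc
      rw [← mul_assoc, ← mul_pow, neg_one_mul, neg_neg, one_pow, one_mul]
    rw [e1]
    exact Ideal.mul_mem_left _ _ (Ideal.mul_mem_left _ _ hcv)
  have hsq : (-1) ^ m * ∏ i, (fun j => c * a j) i = (c ^ (m + 1)) ^ 2 := by
    rw [Finset.prod_mul_distrib, Finset.prod_const, Finset.card_univ, Fintype.card_fin]
    have e1 : (-1 : 𝓞 F) ^ m * (c ^ (2 * m + 1) * ∏ j, a j) = c ^ (2 * m + 1) * c := by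
      rw [hc]
      unfold disc
      ring
    rw [e1]
    ring
  obtain ⟨L, l1, l2, α, l3, l4⟩ := Pool.Agent.L7h3.BK.s_EUL F (d * c ^ 2)
    (mul_ne_zero hd (pow_ne_zero 2 hc0)) hCol m (fun j => c * a j) (c ^ (m + 1)) hsq
    (2 * d * ∏ j, a j) (mul_ne_zero (mul_ne_zero two_ne_zero hd) hprod)
    (fun v hv h2 => hv (Ideal.mul_mem_right _ _ (Ideal.mul_mem_right _ _ h2)))
    (fun v hv h2 => by
      rcases v.isPrime.mem_or_mem h2 with h3 | h3
      · exact hv (Ideal.mul_mem_right _ _ (Ideal.mul_mem_left _ _ h3))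
      · exact hmem v hv (v.isPrime.mem_of_pow_mem _ h3))
    (fun v j hv h2 => by
      rcases v.isPrime.mem_or_mem h2 with h3 | h3
      · exact hmem v hv h3
      · exact hv (Ideal.mul_mem_left _ _
          (Ideal.mem_of_dvd _ (Finset.dvd_prod_of_mem a (Finset.mem_univ j)) h3)))
  have hr : Module.finrank ℤ (curve d c).toAffine.Point = 0 := finrank_zero _ hfin
  refine ⟨hfin, L, ⟨l1, α, fun v hv => ?_, fun s hs => l4 s hs⟩, ?_, l2⟩
  · obtain ⟨h1, h2⟩ := l3 v hv
    refine ⟨h1, ?_⟩
    have hm : v.asIdeal.IsMaximal := v.isMaximal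
    let _ : Field (𝓞 F ⧸ v.asIdeal) := Ideal.Quotient.field v.asIdeal
    have hcv : Ideal.Quotient.mk v.asIdeal c ≠ 0 := by
      rw [Ne, Ideal.Quotient.eq_zero_iff_mem]
      exact hmem v hv
    have h3 := Pool.Agent.L7h3.BK.t_CON (𝓞 F ⧸ v.asIdeal) m
      (fun j => Ideal.Quotient.mk v.asIdeal (a j)) (Ideal.Quotient.mk v.asIdeal d)
      (Ideal.Quotient.mk v.asIdeal c) hcv
    have h4 : Pool.Agent.L7h1.QB.cone (𝓞 F ⧸ v.asIdeal) m
        (fun j => Ideal.Quotient.mk v.asIdeal (c * a j))
        (fun t => t ^ 3 + Ideal.Quotient.mk v.asIdeal (d * c ^ 2) * t) =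
        Pool.Agent.L7h1.QB.cone (𝓞 F ⧸ v.asIdeal) m
        (fun j => Ideal.Quotient.mk v.asIdeal c * Ideal.Quotient.mk v.asIdeal (a j))
        (fun t => t ^ 3 + Ideal.Quotient.mk v.asIdeal d * Ideal.Quotient.mk v.asIdeal c ^ 2 * t) := by
      simp only [map_mul, map_pow]
    rw [cone_eq', h3, ← h4]
    exact h2
  · rw [hr, analyticOrderAt_eq_zero.2 (Or.inr l2)]
    rfl

theorem proved {D : GaussianInt} (h : Good D) : Proved D := by
  refine ⟨?_, ?_⟩
  · rintro ⟨π, hπ, hd, hs⟩
    obtain ⟨P, h1, h2, h3⟩ := Pool.Agent.L7h3.QX.inf_quartx Pool.Agent.L7h97.QX.t_CRX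
      Pool.Agent.L7h97.QX.t_LFX (good_iff.1 h) hπ hd hs
    exact ⟨P, h1, h2, fun R hR => quarticSet_iff.2 (h3 R hR)⟩
  · rintro K _ _ e R hR M _ _ _ ⟨T, hT, htop⟩ F _ _ _ _ _ m a ha ⟨γ, hγ⟩
    have hD0 : D ≠ 0 := h.1.1.ne_zero
    have hd : algebraMap (𝓞 K) (𝓞 F) (e D) ≠ 0 := by
      intro h0
      have h1 : e D = 0 := (FaithfulSMul.algebraMap_injective (𝓞 K) (𝓞 F)) (by rw [h0, map_zero])
      exact hD0 (e.injective (by rw [h1, map_zero]))
    have hprod : ∏ j, a j ≠ 0 := Finset.prod_ne_zero_iff.2 fun j _ => ha j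
    have hc0 : ((disc a : 𝓞 F) : F) ≠ 0 := by
      rw [RingOfIntegers.coe_ne_zero_iff]
      exact mul_ne_zero (pow_ne_zero _ (neg_ne_zero.2 one_ne_zero)) hprod
    refine beilinson_of hd ha ?_
    exact Pool.Agent.L7h3.BK.crit_b Pool.Agent.L7h3.QD.parts Pool.Agent.L7h3.QX.partsX
      Pool.Agent.L7h97.QX.t_CRX (quarticSet_iff.1 hR) e T
      (fun t ht => (hT t ht).imp (fun ⟨δ, h1, h2⟩ => ⟨δ, quadratic_iff.1 h1, h2⟩) id) htop hc0 hγ

end proof

/-- **Main theorem.**

1. The proportion of the good `D` among the `D` of norm at most `X` in the class tends to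
   `∏_{i ≥ 0} (1 - 2^{-(2 i + 1)})`, which is greater than `0.4194`.
2. For all large `X`, the good `D` are at least one seventh of all the Gaussian integers of norm at
   most `X` that no fourth power of a prime divides.
3. For every good `D` the statement `Proved D` holds: Beilinson's conjecture on ranks for all the quadric
   bundles `X_{a,D}` of all the odd dimensions over all the intermediate fields `F` of the Kummer extensions
   `M` of exponent four of `K = ℚ(i)` described there, if `(-1)^m a_0 ⋯ a_{2m}` is a square in `M`. -/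
theorem result :
    (Filter.Tendsto (fun X : ℕ => ({D : GaussianInt | D.norm ≤ X ∧ Good D}.ncard : ℝ) /
      ({D : GaussianInt | D.norm ≤ X ∧ InClass D}.ncard : ℝ)) Filter.atTop
      (nhds (∏' i : ℕ, (1 - (1 / 2 : ℝ) ^ (2 * i + 1)))) ∧
      0.4194 < ∏' i : ℕ, (1 - (1 / 2 : ℝ) ^ (2 * i + 1))) ∧
    (∃ X₀ : ℕ, ∀ X : ℕ, X₀ ≤ X →
      (1 / 7 : ℝ) * ((Family X).ncard : ℝ) ≤ (({D | D ∈ Family X ∧ Good D}).ncard : ℝ)) ∧
    ∀ D : GaussianInt, Good D → Proved D := by
  have h := Pool.Agent.Results.MP_32c55d_nt.QuarticTwistsOneSeventh.result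
  exact ⟨h.1, h.2.1, fun D hD => proved hD⟩

end Pool.Agent.Results.MP_6dc9d1_nt.KummerQuadricBundles
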