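import Pool.Agent.L7h1.SP.Main
import Pool.Agent.L7h1.SP.Rat
import Pool.Agent.R430.T1

/-!
# Beilinson's conjecture on ranks for quadric bundles of every odd dimension over number fields of
# degree a power of two

Let `k` be a number field, `m ≥ 0`, and let `a_0, …, a_{2m}` be nonzero integers of `k`.  Let `X = X_a` be the
quadric bundle

  `a_0 x_0² + … + a_{2m} x_{2m}² = (t³ + 16) z²`

over the projective line with the coordinate `t` (at infinity one puts `t = 1/s`, `z = s² z'`, the right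
hand side becomes `(s + 16 s⁴) z'²`).  `X` is smooth and projective of dimension `2 m + 1`; its four
singular fibres, over `t = ∞` and `t³ = -16`, are cones.  Let `δ = (-1)^m a_0 ⋯ a_{2m}`, and let `E_δ` be
the curve `y² = x³ + 16 δ³`, the twist of `E : y² + y = x³` by `k(√δ)/k`; for `m = 0` the variety `X` is
`E_δ`.

It is known that `H^{2m+1}(X) = H¹(E_δ)(-m)`, and that `CH^{m+1}(X)_0 ⊗ ℚ = E_δ(k) ⊗ ℚ` (quadric
bundles over curves; the double cover of the line given by the discriminant is `E_δ`).  So Beilinson's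
conjecture for `X` (the case `i = m`) is the statement `ord_{s=m+1} L(H^{2m+1}(X), s) = rank E_δ(k)`.

Call a prime of a number field good when `2` is not a cube modulo it.  A number field `k` is in our
class (`InTower`) when `k = ℚ`, or when there are `F = ℚ(√-3)`, a quadratic extension `N/F` in which only
good primes ramify, and a Galois extension `K/N` of exponent two in which only good primes ramify, or
an abelian extension `K/N` of degree a power of two with an Artin map modulo an ideal with only good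
prime divisors, such that `k(√-3) = K` (for example `k = K`).  The class contains fields of every
degree `2 ^ n`.

Theorem: if `k` and `k(√δ)` are in the class, then Beilinson's conjecture on ranks is true for
`X_a`, both sides being `0`: the `L`-function is meromorphic on the complex plane, holomorphic and
not zero at `s = m + 1`, and `E_δ(k)` is finite.  So it holds in every odd dimension `2 m + 1`, over
number fields of unbounded degree, and for infinitely many `δ` (modulo squares) over each of the fields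
`k`.

The `L`-function is given by the numbers of points: at a place `v` of `k` that does not divide
`6 a_0 ⋯ a_{2m}`, with `N(v) = q`, the two eigenvalues `α`, `ᾱ` of the Frobenius on `H^{2m+1}(X)` are
determined by `αᾱ = q^{2m+1}` and `#X(𝔽_q) = (1 + q)(1 + q + … + q^{2m}) - (α + ᾱ)`.  The Euler factors at
the finitely many other places are left out; they are finite and not zero at the centre, so the order
of vanishing is the same.

The arithmetic of `E` over the fields of the class is in `Pool/Agent/R430` and `Pool/Agent/Y696`.  The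
quotient of the two `L`-functions over `k(√δ)` and over `k`, the decomposition of the primes in
quadratic extensions and the points of the quadric bundles are in `Pool/Agent/L7h1/SP` and
`Pool/Agent/L7h1/QB`.
-/

set_option autoImplicit false

open NumberField IsDedekindDomain
open scoped Classical

namespace Pool.Agent.Results.MP_6dc9d1_nt.QuadricBundlesTwoTowers

/-- only primes modulo which `2` is not a cube ramify in `K/F`: if `σ ≠ 1` lies in the inertia group of
the prime `w` of `K`, then `2` is not a cube modulo the prime of `F` below `w` -/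
def GoodRam (F K : Type) [Field F] [NumberField F] [Field K] [NumberField K] [Algebra F K] : Prop :=
  ∀ (w : HeightOneSpectrum (𝓞 K)) (σ : Gal(K/F)), (∀ x : 𝓞 K, σ • x - x ∈ w.asIdeal) → σ ≠ 1 →
    ∀ α : 𝓞 F, α ^ 3 - 2 ∉ w.asIdeal.under (𝓞 F)

/-- `Φ` is an Artin map modulo the ideal `𝔪` of the Galois extension `K/F` (`F` has no real place): on
the non-zero ideals prime to `𝔪` it is multiplicative, it is trivial on the ideals `(α)` with
`α - 1 ∈ 𝔪`, `α ≠ 0`, the inertia groups of the primes of `K` not above a prime divisor of `𝔪` are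
trivial, and `Φ(𝔭)` acts as a Frobenius automorphism at the primes of `K` above `𝔭`, `𝔭 ∤ 𝔪` -/
structure ArtinMap {F K : Type} [Field F] [NumberField F] [Field K] [NumberField K] [Algebra F K]
    (𝔪 : Ideal (𝓞 F)) (Φ : Ideal (𝓞 F) → Gal(K/F)) : Prop where
  mul : ∀ I J : Ideal (𝓞 F), I ≠ ⊥ → J ≠ ⊥ → IsCoprime I 𝔪 → IsCoprime J 𝔪 → Φ (I * J) = Φ I * Φ J
  ray : ∀ α : 𝓞 F, α ≠ 0 → α - 1 ∈ 𝔪 → Φ (Ideal.span {α}) = 1
  unram : ∀ w : HeightOneSpectrum (𝓞 K), ¬ 𝔪 ≤ w.asIdeal.under (𝓞 F) →
    ∀ σ : Gal(K/F), (∀ x : 𝓞 K, σ • x - x ∈ w.asIdeal) → σ = 1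
  frob : ∀ w : HeightOneSpectrum (𝓞 K), ¬ 𝔪 ≤ w.asIdeal.under (𝓞 F) → ∀ x : 𝓞 K,
    Φ (w.asIdeal.under (𝓞 F)) • x - x ^ Nat.card (𝓞 F ⧸ w.asIdeal.under (𝓞 F)) ∈ w.asIdeal

/-- the hypothesis on `K/N`: its Galois group has exponent `2` and only good primes ramify, or it is
abelian of degree `2 ^ n` and has an Artin map modulo an ideal `𝔪 ≠ 0` with only good prime divisors -/
def Admissible (N K : Type) [Field N] [NumberField N] [Field K] [NumberField K] [Algebra N K] : Prop :=
  (GoodRam N K ∧ ∀ σ : Gal(K/N), σ * σ = 1) ∨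
    ((∃ n : ℕ, Module.finrank N K = 2 ^ n) ∧ (∀ σ τ : Gal(K/N), σ * τ = τ * σ) ∧
      ∃ 𝔪 : Ideal (𝓞 N), 𝔪 ≠ ⊥ ∧
        (∀ v : HeightOneSpectrum (𝓞 N), 𝔪 ≤ v.asIdeal → ∀ α : 𝓞 N, α ^ 3 - 2 ∉ v.asIdeal) ∧
        ∃ Φ : Ideal (𝓞 N) → Gal(K/N), ArtinMap 𝔪 Φ)

/-- The class of number fields: `k` is `ℚ`, or `k(√-3) = K` for an admissible Galois extension `K` of a
quadratic extension `N` of `F = ℚ(√-3)` in which only good primes ramify. -/
inductive InTower (k : Type) [Field k] [NumberField k] : Prop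
  /-- the field of rational numbers -/
  | rat (h : Module.finrank ℚ k = 1)
  /-- the fields `k` with `k(√-3) = K` -/
  | tower (F N K : Type) [Field F] [NumberField F] [IsCyclotomicExtension {3} ℚ F]
      [Field N] [NumberField N] [Algebra F N] [Field K] [NumberField K] [Algebra N K] [IsGalois N K]
      [Algebra k K] (quad : Module.finrank F N = 2) (ram : GoodRam F N) (adm : Admissible N K)
      (hk : ∃ a : K, a ^ 2 = -3 ∧ IntermediateField.adjoin k {a} = ⊤)

/-- For a finite field `F` and elements `a_j` of `F` this is `(#F - 1) #X(F)`, where `X` is the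
quadric bundle `∑ a_j x_j² = (t³ + 16) z²` over the projective line: the number of the `t` in `F` and
`(x, z) ≠ 0` which satisfy the equation, and of the `(x, z) ≠ 0` with `∑ a_j x_j² = 0` (the fibre at
infinity). -/
noncomputable def cone (F : Type) [CommRing F] (m : ℕ) (a : Fin (2 * m + 1) → F) : ℕ :=
  Nat.card {p : F × (Fin (2 * m + 1) → F) × F // p.2 ≠ 0 ∧
    ∑ j, a j * p.2.1 j ^ 2 = (p.1 ^ 3 + 16) * p.2.2 ^ 2} +
  Nat.card {p : (Fin (2 * m + 1) → F) × F // p ≠ 0 ∧ ∑ j, a j * p.1 j ^ 2 = 0}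

/-- `α` and its complex conjugate are the eigenvalues of the Frobenius at the place `v` (not dividing
`6 ∏ a_j`) on `H^{2m+1}(X)`: `|α|² = N(v)^{2m+1}`, and the number of points of `X` over the residue
field is `(1 + N(v)) (1 + N(v) + … + N(v)^{2m}) - (α + ᾱ)`. -/
def IsFrobenius {k : Type} [Field k] [NumberField k] (m : ℕ) (a : Fin (2 * m + 1) → 𝓞 k)
    (v : HeightOneSpectrum (𝓞 k)) (α : ℂ) : Prop :=
  ‖α‖ ^ 2 = (Ideal.absNorm v.asIdeal : ℝ) ^ (2 * m + 1) ∧
  (cone (𝓞 k ⧸ v.asIdeal) m (fun j => Ideal.Quotient.mk v.asIdeal (a j)) : ℂ) =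
    ((Ideal.absNorm v.asIdeal : ℂ) - 1) *
      ((1 + (Ideal.absNorm v.asIdeal : ℂ)) *
        ∑ l ∈ Finset.range (2 * m + 1), (Ideal.absNorm v.asIdeal : ℂ) ^ l -
      (α + (starRingEnd ℂ) α))

/-- `L` is a meromorphic function on the complex plane which for `Re s > m + 3 / 2` is the `L`-function
of `H^{2m+1}(X)`, that is the product of the Euler factors `((1 - α N(v)^{-s}) (1 - ᾱ N(v)^{-s}))⁻¹` at the
places `v` that do not divide `6 ∏ a_j`. -/
def IsLFunction {k : Type} [Field k] [NumberField k] (m : ℕ) (a : Fin (2 * m + 1) → 𝓞 k)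
    (L : ℂ → ℂ) : Prop :=
  MeromorphicOn L Set.univ ∧ ∃ α : HeightOneSpectrum (𝓞 k) → ℂ,
    (∀ v : HeightOneSpectrum (𝓞 k), 6 * ∏ j, a j ∉ v.asIdeal → IsFrobenius m a v (α v)) ∧
    ∀ s : ℂ, m + 3 / 2 < s.re →
      HasProd (fun v : {v : HeightOneSpectrum (𝓞 k) // 6 * ∏ j, a j ∉ v.asIdeal} =>
        ((1 - α v.1 * (Ideal.absNorm v.1.asIdeal : ℂ) ^ (-s)) *
          (1 - (starRingEnd ℂ) (α v.1) * (Ideal.absNorm v.1.asIdeal : ℂ) ^ (-s)))⁻¹) (L s)

/-- The discriminant `δ = (-1)^m a_0 ⋯ a_{2m}`, in `k`. -/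
noncomputable def disc {k : Type} [Field k] [NumberField k] {m : ℕ}
    (a : Fin (2 * m + 1) → 𝓞 k) : k :=
  algebraMap (𝓞 k) k ((-1) ^ m * ∏ j, a j)

/-- The curve `E_δ : y² = x³ + 16 δ³` over `k`. -/
def curve {k : Type} [Field k] (δ : k) : WeierstrassCurve k := ⟨0, 0, 0, 0, 16 * δ ^ 3⟩

/-- Beilinson's conjecture for `X_a` over `k` (`CH^{m+1}(X)_0 ⊗ ℚ = E_δ(k) ⊗ ℚ`), with both sides zero:
the group `E_δ(k)` is finite, `L(H^{2m+1}(X), s)` is continued to the complex plane and holomorphic at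
`s = m + 1`, its order there is the rank of `E_δ(k)`, and its value there is not zero. -/
def Beilinson {k : Type} [Field k] [NumberField k] (m : ℕ) (a : Fin (2 * m + 1) → 𝓞 k) : Prop :=
  Finite (curve (disc a)).toAffine.Point ∧
  ∃ L : ℂ → ℂ, IsLFunction m a L ∧ AnalyticAt ℂ L (m + 1) ∧
    analyticOrderAt L (m + 1) = Module.finrank ℤ (curve (disc a)).toAffine.Point ∧ L (m + 1) ≠ 0

theorem two_part {k : Type} [Field k] [NumberField k] (h : InTower k) :
    Pool.Agent.Y696.TwoPart k := by
  rcases h with h | ⟨F, N, K, h2, hg, hcase, hk⟩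
  · exact Pool.Agent.L7h1.SP.rat h
  · have hyp : Pool.Agent.R430.Hyp N K := by
      rcases hcase with ⟨h3, h4⟩ | ⟨hn, hcomm, 𝔪, h𝔪, hgood, Φ, hΦ⟩
      · exact Or.inl ⟨h3, h4⟩
      · exact Or.inr ⟨hn, hcomm, 𝔪, h𝔪, hgood, Φ, hΦ.mul, hΦ.ray, hΦ.unram, hΦ.frob⟩
    exact Pool.Agent.R430.all_k h2 hg hyp hk

/-- **Main theorem.**  Let `k` and `K` be number fields in the class, and let `a_0, …, a_{2m}` be nonzero
integers of `k` such that `K = k(√δ)`, `δ = (-1)^m a_0 ⋯ a_{2m}` (`K = k` when `δ` is a square).  Then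
Beilinson's conjecture on ranks holds, with both sides zero, for the quadric bundle `X_a` of dimension
`2 m + 1` over `k`. -/
theorem result : ∀ (k K : Type) [Field k] [NumberField k] [Field K] [NumberField K] [Algebra k K],
    InTower k → InTower K → ∀ (m : ℕ) (a : Fin (2 * m + 1) → 𝓞 k), (∀ j, a j ≠ 0) →
    (∃ r : K, r ^ 2 = algebraMap k K (disc a) ∧ IntermediateField.adjoin k {r} = ⊤) →
    Beilinson m a := by
  intro k K _ _ _ _ _ hk hK m a ha ⟨r, hr, hadj⟩
  have tk := two_part hk
  have tK := two_part hK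
  obtain ⟨L, h1, h2, h3, α, h4, h5⟩ := Pool.Agent.L7h1.SP.lfun tk tK m ha hr hadj
  have hδ : disc a ≠ 0 := by
    unfold disc
    rw [Ne, map_eq_zero_iff _ (FaithfulSMul.algebraMap_injective (𝓞 k) k)]
    exact mul_ne_zero (pow_ne_zero _ (neg_ne_zero.2 one_ne_zero))
      (Finset.prod_ne_zero_iff.2 fun j _ => ha j)
  have hfin : Finite (curve (disc a)).toAffine.Point := Pool.Agent.L7h1.SP.pts tK.finite hδ hr
  have hrk : Module.finrank ℤ (curve (disc a)).toAffine.Point = 0 := by
    refine Module.finrank_eq_zero_of_rank_eq_zero ?_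
    rw [rank_eq_zero_iff]
    intro x
    refine ⟨(Nat.card (curve (disc a)).toAffine.Point : ℤ), by exact_mod_cast Nat.card_pos.ne', ?_⟩
    rw [natCast_zsmul]
    exact card_nsmul_eq_zero'
  refine ⟨hfin, L, ⟨h1, α, h4, h5⟩, h2, ?_, h3⟩
  rw [hrk, analyticOrderAt_eq_zero.2 (Or.inr h3)]
  rfl

end Pool.Agent.Results.MP_6dc9d1_nt.QuadricBundlesTwoTowers
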